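import Pool.Agent.Helper36.TL.Eb
import Pool.Agent.Helper4.TL.Mom
import Pool.Agent.Helper63.TL.Overlap

/-!
# Project TL, TL-F: the expectations at one row
-/

set_option autoImplicit false

namespace Pool.Agent.Helper84.TL

open Finset Pool.Agent.Lead.TB

section

variable {n j : ℕ} {G : Gr n} {σ : Equiv.Perm (Fin n)} {v : Fin n}

/-- The rows other than `v` adjacent to the column `σ v`. -/
def h9P (G : Gr n) (σ : Equiv.Perm (Fin n)) (v : Fin n) : Finset (Fin n) :=
  univ.filter fun x => x ≠ v ∧ σ v ∈ G x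

/-- The rows other than `v` matched to a column adjacent to `v`. -/
def h9Q (G : Gr n) (σ : Equiv.Perm (Fin n)) (v : Fin n) : Finset (Fin n) :=
  univ.filter fun x => x ≠ v ∧ σ x ∈ G v

/-- The rows other than `v` and the partner of `w` adjacent to `w`. -/
def h9P' (G : Gr n) (σ : Equiv.Perm (Fin n)) (v w : Fin n) : Finset (Fin n) :=
  univ.filter fun x => x ≠ v ∧ σ x ≠ w ∧ w ∈ G x

/-- The rows other than `v` and the partner of `w` matched to a column adjacent to `v`. -/
def h9Q' (G : Gr n) (σ : Equiv.Perm (Fin n)) (v w : Fin n) : Finset (Fin n) :=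
  univ.filter fun x => x ≠ v ∧ σ x ≠ w ∧ σ x ∈ G v

theorem h9_mem (hσ : σ ∈ pm G) (r : Fin n) : σ r ∈ G r := by
  simp only [pm, Finset.mem_filter, Finset.mem_univ, true_and] at hσ
  exact hσ r

theorem h9_ne {x w : Fin n} : x ≠ σ.symm w ↔ σ x ≠ w := by
  rw [Ne, Ne, Equiv.eq_symm_apply]

theorem h9P_eq : h9P G σ v = (univ.filter fun x => σ v ∈ G x).erase v := by
  ext x
  simp [h9P]

theorem h9Q_eq : h9Q G σ v = ((G v).image σ.symm).erase v := by
  ext x
  simp only [h9Q, Finset.mem_filter, Finset.mem_univ, true_and, Finset.mem_erase,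
    Finset.mem_image]
  constructor
  · rintro ⟨h1, h2⟩
    exact ⟨h1, σ x, h2, by simp⟩
  · rintro ⟨h1, w, h2, rfl⟩
    exact ⟨h1, by simpa using h2⟩

theorem h9P_card (hG : Reg j G) (hσ : σ ∈ pm G) : (h9P G σ v).card = j - 1 := by
  rw [h9P_eq, Finset.card_erase_of_mem (by simpa using h9_mem hσ v), hG.2]

theorem h9Q_card (hG : Reg j G) (hσ : σ ∈ pm G) : (h9Q G σ v).card = j - 1 := by
  rw [h9Q_eq, Finset.card_erase_of_mem, Finset.card_image_of_injective _ σ.symm.injective,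
    hG.1]
  rw [Finset.mem_image]
  exact ⟨σ v, h9_mem hσ v, by simp⟩

theorem h9P'_eq {w : Fin n} : h9P' G σ v w =
    ((univ.filter fun x => w ∈ G x).erase v).erase (σ.symm w) := by
  ext x
  simp only [h9P', Finset.mem_filter, Finset.mem_univ, true_and, Finset.mem_erase, h9_ne]
  tauto

theorem h9Q'_eq {w : Fin n} : h9Q' G σ v w = (h9Q G σ v).erase (σ.symm w) := by
  ext x
  simp only [h9Q', h9Q, Finset.mem_filter, Finset.mem_univ, true_and, Finset.mem_erase, h9_ne]
  tauto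

theorem h9_sw {w : Fin n} (hw : w ≠ σ v) : σ.symm w ≠ v := by
  intro h
  exact hw (by rw [← h]; simp)

theorem h9P'_card (hG : Reg j G) (hσ : σ ∈ pm G) {w : Fin n} (hw : w ∈ (G v).erase (σ v)) :
    (h9P' G σ v w).card = j - 2 := by
  rw [Finset.mem_erase] at hw
  have h1 : w ∈ G (σ.symm w) := by
    have := h9_mem hσ (σ.symm w)
    simpa using this
  rw [h9P'_eq, Finset.card_erase_of_mem, Finset.card_erase_of_mem (by simpa using hw.2), hG.2]
  · omega
  · rw [Finset.mem_erase]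
    exact ⟨h9_sw hw.1, by simpa using h1⟩

theorem h9Q'_card (hG : Reg j G) (hσ : σ ∈ pm G) {w : Fin n} (hw : w ∈ (G v).erase (σ v)) :
    (h9Q' G σ v w).card = j - 2 := by
  rw [Finset.mem_erase] at hw
  rw [h9Q'_eq, Finset.card_erase_of_mem, h9Q_card hG hσ]
  · omega
  · simp only [h9Q, Finset.mem_filter, Finset.mem_univ, true_and]
    exact ⟨h9_sw hw.1, by simpa using hw.2⟩

theorem h9P_sub : h9P G σ v ⊆ univ.erase v := by
  intro x
  simp only [h9P, Finset.mem_filter, Finset.mem_univ, true_and, Finset.mem_erase, and_true]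
  exact fun h => h.1

theorem h9Q_sub : h9Q G σ v ⊆ univ.erase v := by
  intro x
  simp only [h9Q, Finset.mem_filter, Finset.mem_univ, true_and, Finset.mem_erase, and_true]
  exact fun h => h.1

theorem h9P'_sub {w : Fin n} : h9P' G σ v w ⊆ (univ.erase v).erase (σ.symm w) := by
  intro x
  simp only [h9P', Finset.mem_filter, Finset.mem_univ, true_and, Finset.mem_erase, and_true,
    h9_ne]
  exact fun h => ⟨h.2.1, h.1⟩

theorem h9Q'_sub {w : Fin n} : h9Q' G σ v w ⊆ (univ.erase v).erase (σ.symm w) := by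
  intro x
  simp only [h9Q', Finset.mem_filter, Finset.mem_univ, true_and, Finset.mem_erase, and_true,
    h9_ne]
  exact fun h => ⟨h.2.1, h.1⟩

theorem h9_B : (h9P G σ v ∩ h9Q G σ v).card = Bv G σ v := by
  unfold Bv
  congr 1
  ext x
  simp only [h9P, h9Q, Finset.mem_inter, Finset.mem_filter, Finset.mem_univ, true_and]
  tauto

theorem h9_C : (Cv G σ v : ℝ) =
    ∑ w ∈ (G v).erase (σ v), ((h9P' G σ v w ∩ h9Q' G σ v w).card : ℝ) := by
  unfold Cv
  push_cast
  refine Finset.sum_congr rfl fun w _ => ?_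
  congr 2
  ext x
  simp only [h9P', h9Q', Finset.mem_inter, Finset.mem_filter, Finset.mem_univ, true_and]
  tauto

/-- The degree of the partner of `v`. -/
theorem h9_dg (hσ : σ ∈ pm G) {A : Finset (Fin n)} (hA : A ⊆ univ.erase v) :
    dg G (insert v A) (σ v) = 1 + (A ∩ h9P G σ v).card := by
  have hv : v ∉ A := fun h => by simpa using hA h
  unfold dg
  rw [Finset.filter_insert, if_pos (h9_mem hσ v), Finset.card_insert_of_notMem, add_comm]
  · congr 2
    ext x
    simp only [h9P, Finset.mem_inter, Finset.mem_filter, Finset.mem_univ, true_and]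
    constructor
    · rintro ⟨h1, h2⟩
      exact ⟨h1, fun h => hv (h ▸ h1), h2⟩
    · rintro ⟨h1, h2⟩
      exact ⟨h1, h2.2⟩
  · simp [hv]

theorem h9_K {A : Finset (Fin n)} (hA : A ⊆ univ.erase v) :
    Kv G σ (insert v A) v = (A ∩ h9Q G σ v).card := by
  have hv : v ∉ A := fun h => by simpa using hA h
  unfold Kv
  refine Finset.card_bij (fun w _ => σ.symm w) ?_ ?_ ?_
  · intro w hw
    simp only [Finset.mem_filter, Finset.mem_insert] at hw
    have h1 := h9_sw hw.2.1
    simp only [h9Q, Finset.mem_inter, Finset.mem_filter, Finset.mem_univ, true_and]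
    refine ⟨hw.2.2.resolve_left h1, h1, by simpa using hw.1⟩
  · intro w _ w' _ h
    exact σ.symm.injective h
  · intro x hx
    simp only [h9Q, Finset.mem_inter, Finset.mem_filter, Finset.mem_univ, true_and] at hx
    refine ⟨σ x, ?_, by simp⟩
    simp only [Finset.mem_filter, Finset.mem_insert]
    refine ⟨hx.2.2, fun h => hx.2.1 (σ.injective h), ?_⟩
    right
    simpa using hx.1

/-- The degree of a column `w ≠ σ v` whose partner is in the set. -/
theorem h9_dg' (hσ : σ ∈ pm G) {w : Fin n} (hw : w ∈ (G v).erase (σ v)) {A : Finset (Fin n)}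
    (hA : A ⊆ (univ.erase v).erase (σ.symm w)) :
    dg G (insert v (insert (σ.symm w) A)) w = 2 + (A ∩ h9P' G σ v w).card := by
  rw [Finset.mem_erase] at hw
  have h1 : w ∈ G (σ.symm w) := by
    have := h9_mem hσ (σ.symm w)
    simpa using this
  have hv : v ∉ A := fun h => by simpa using hA h
  have hx : σ.symm w ∉ A := fun h => by simpa using hA h
  have hxv := h9_sw hw.1
  unfold dg
  rw [Finset.filter_insert, if_pos hw.2, Finset.card_insert_of_notMem, Finset.filter_insert,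
    if_pos h1, Finset.card_insert_of_notMem]
  · have : (A.filter fun x => w ∈ G x) = A ∩ h9P' G σ v w := by
      ext x
      simp only [h9P', Finset.mem_inter, Finset.mem_filter, Finset.mem_univ, true_and]
      constructor
      · rintro ⟨h2, h3⟩
        refine ⟨h2, fun h => hv (h ▸ h2), fun h => hx ?_, h3⟩
        rw [← h]
        simpa using h2
      · rintro ⟨h2, h3⟩
        exact ⟨h2, h3.2.2⟩
    rw [this]
    omega
  · simp [hx]
  · rw [Finset.mem_filter, Finset.mem_insert]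
    rintro ⟨h | h, -⟩
    · exact hxv h.symm
    · exact hv h

theorem h9_K' {w : Fin n} (hw : w ∈ (G v).erase (σ v)) {A : Finset (Fin n)}
    (hA : A ⊆ (univ.erase v).erase (σ.symm w)) :
    1 + Kv G σ (insert v (insert (σ.symm w) A)) v = 2 + (A ∩ h9Q' G σ v w).card := by
  rw [Finset.mem_erase] at hw
  have hx : σ.symm w ∉ A := fun h => by simpa using hA h
  have hxv := h9_sw hw.1
  have hA' : insert (σ.symm w) A ⊆ univ.erase v := by
    intro x hx'
    rw [Finset.mem_insert] at hx'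
    rcases hx' with rfl | h
    · simpa using hxv
    · exact Finset.mem_of_mem_erase (hA h)
  rw [h9_K hA']
  have h2 : insert (σ.symm w) A ∩ h9Q G σ v = insert (σ.symm w) (A ∩ h9Q' G σ v w) := by
    ext x
    simp only [h9Q, h9Q', Finset.mem_inter, Finset.mem_insert, Finset.mem_filter,
      Finset.mem_univ, true_and]
    constructor
    · rintro ⟨rfl | h, h3⟩
      · exact Or.inl rfl
      · refine Or.inr ⟨h, h3.1, fun h4 => hx ?_, h3.2⟩
        rw [← h4]
        simpa using h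
    · rintro (rfl | ⟨h, h3, h4, h5⟩)
      · exact ⟨Or.inl rfl, hxv, by simpa using hw.2⟩
      · exact ⟨Or.inr h, h3, h5⟩
  rw [h2, Finset.card_insert_of_notMem (by simp [hx])]
  omega

/-- The decomposition of `Sv`. -/
theorem h9_S (hσ : σ ∈ pm G) {A : Finset (Fin n)} (hA : A ⊆ univ.erase v) :
    Sv G σ (insert v A) v = 1 / (1 + ((A ∩ h9P G σ v).card : ℝ)) +
      ∑ w ∈ (G v).erase (σ v),
        (if σ.symm w ∈ A then (1 : ℝ) / dg G (insert v A) w else 0) := by
  unfold Sv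
  rw [Finset.sum_filter, ← Finset.add_sum_erase (G v) _ (h9_mem hσ v)]
  congr 1
  · rw [if_pos (by simp), h9_dg hσ hA]
    push_cast
    rfl
  · refine Finset.sum_congr rfl fun w hw => ?_
    have hw' := h9_sw (Finset.mem_erase.1 hw).1
    simp [hw']

/-- One term of the decomposition, averaged. -/
theorem h9_term {w : Fin n} (hw : w ∈ (G v).erase (σ v)) (τ : ℝ) (f h : Finset (Fin n) → ℝ)
    (hf : ∀ A, A ⊆ (univ.erase v).erase (σ.symm w) → f (insert (σ.symm w) A) = h A)
    (hf0 : ∀ A, A ⊆ (univ.erase v).erase (σ.symm w) → f A = 0) :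
    Eb (univ.erase v) τ f = τ * Eb ((univ.erase v).erase (σ.symm w)) τ h := by
  have hmem : σ.symm w ∈ univ.erase v := by
    simpa using h9_sw (Finset.mem_erase.1 hw).1
  conv_lhs => rw [← Finset.insert_erase hmem]
  rw [Eb_insert (Finset.notMem_erase _ _), Eb_congr hf, Eb_congr hf0, Eb_const]
  ring

end

theorem Sv_mean {n j : ℕ} (G : Gr n) (hG : Reg j G) (σ : Equiv.Perm (Fin n)) (hσ : σ ∈ pm G)
    (v : Fin n) {τ : ℝ} (h0 : 0 < τ) (h1 : τ ≤ 1) :
    Eb (univ.erase v) τ (fun A => Sv G σ (insert v A) v) = 1 := by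
  have hj : 1 ≤ j := by
    rw [← hG.1 v]
    exact Finset.card_pos.2 ⟨_, h9_mem hσ v⟩
  have hτ : τ ≠ 0 := h0.ne'
  rw [Eb_congr (h := fun A => 1 / (1 + ((A ∩ h9P G σ v).card : ℝ)) +
      ∑ w ∈ (G v).erase (σ v),
        (if σ.symm w ∈ A then (1 : ℝ) / dg G (insert v A) w else 0))
      (fun A hA => h9_S hσ hA),
    Eb_add, Eb_sum, Eb_inter h9P_sub τ (fun B => 1 / (1 + (B.card : ℝ))), Eb_one _ hτ,
    h9P_card hG hσ]
  have hterm : ∀ w ∈ (G v).erase (σ v), Eb (univ.erase v) τ (fun A =>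
      if σ.symm w ∈ A then (1 : ℝ) / dg G (insert v A) w else 0) =
      (1 / ((j : ℝ) - 1)) * (1 - (1 - (1 - τ) ^ j) / (j * τ)) := by
    intro w hw
    have hj2 : 2 ≤ j := by
      have h3 : 0 < ((G v).erase (σ v)).card := Finset.card_pos.2 ⟨w, hw⟩
      rw [Finset.card_erase_of_mem (h9_mem hσ v), hG.1] at h3
      omega
    rw [h9_term hw τ _ (fun A => 1 / (2 + ((A ∩ h9P' G σ v w).card : ℝ)))]
    · rw [Eb_inter h9P'_sub τ (fun B => 1 / (2 + (B.card : ℝ)))]
      have h4 := Eb_two (h9P' G σ v w) hτ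
      rw [h9P'_card hG hσ hw] at h4
      obtain ⟨i, rfl⟩ : ∃ i, j = i + 2 := ⟨j - 2, by omega⟩
      simp only [Nat.add_sub_cancel] at h4
      have hi : ((i : ℝ) + 1) ≠ 0 := by positivity
      have h5 : ((i + 2 : ℕ) : ℝ) - 1 = i + 1 := by push_cast; ring
      rw [h5]
      push_cast
      rw [← h4]
      field_simp
    · intro A hA
      rw [if_pos (Finset.mem_insert_self _ _), h9_dg' hσ hw hA]
      push_cast
      rfl
    · intro A hA
      rw [if_neg]
      intro h
      simpa using hA h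
  rw [Finset.sum_congr rfl hterm, Finset.sum_const, Finset.card_erase_of_mem (h9_mem hσ v),
    hG.1, nsmul_eq_mul, Nat.cast_sub hj]
  obtain ⟨i, rfl⟩ : ∃ i, j = i + 1 := ⟨j - 1, by omega⟩
  simp only [Nat.add_sub_cancel]
  rcases Nat.eq_zero_or_pos i with hi | hi
  · subst hi
    simp
    exact hτ
  · have hi' : (i : ℝ) ≠ 0 := by positivity
    have hi1 : ((i : ℝ) + 1) ≠ 0 := by positivity
    have h5 : ((i + 1 : ℕ) : ℝ) - 1 = i := by push_cast; ring
    rw [h5]
    push_cast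
    rw [add_sub_cancel_right]
    field_simp
    ring

theorem Sv_K_mean {n j : ℕ} (hj : 4 ≤ j) (G : Gr n) (hG : Reg j G) (σ : Equiv.Perm (Fin n))
    (hσ : σ ∈ pm G) (v : Fin n) {τ : ℝ} (h0 : 0 < τ) (h1 : τ ≤ 1) :
    Eb (univ.erase v) τ (fun A => Sv G σ (insert v A) v / (1 + Kv G σ (insert v A) v)) ≤
      ((1 - (1 - τ) ^ j) / (j * τ)) ^ 2 +
      (1 - (1 - (1 - τ) ^ j) / (j * τ)) ^ 2 / ((j - 1) * τ) +
      6 * Bv G σ v * τ / ((j - 1) * τ) ^ 4 + 6 * τ ^ 2 * Cv G σ v / ((j - 2) * τ) ^ 4 := by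
  have hτ : τ ≠ 0 := h0.ne'
  have hdec : ∀ A, A ⊆ univ.erase v →
      Sv G σ (insert v A) v / (1 + Kv G σ (insert v A) v) =
        1 / ((1 + ((A ∩ h9P G σ v).card : ℝ)) * (1 + ((A ∩ h9Q G σ v).card : ℝ))) +
        ∑ w ∈ (G v).erase (σ v), (if σ.symm w ∈ A then
          (1 : ℝ) / (dg G (insert v A) w * (1 + Kv G σ (insert v A) v)) else 0) := by
    intro A hA
    rw [h9_S hσ hA, add_div, Finset.sum_div]
    congr 1
    · rw [h9_K hA, div_div]
    · refine Finset.sum_congr rfl fun w _ => ?_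
      split_ifs
      · rw [div_div]
      · simp
  rw [Eb_congr hdec, Eb_add, Eb_sum]
  -- the first term
  have hT1 : Eb (univ.erase v) τ (fun A =>
      1 / ((1 + ((A ∩ h9P G σ v).card : ℝ)) * (1 + ((A ∩ h9Q G σ v).card : ℝ)))) ≤
      ((1 - (1 - τ) ^ j) / (j * τ)) ^ 2 + 6 * Bv G σ v * τ / ((j - 1) * τ) ^ 4 := by
    have h3 := overlap (X := univ.erase v) (h9P_sub (G := G) (σ := σ)) h9Q_sub (m := j - 1)
      (by omega) (h9P_card hG hσ) (h9Q_card hG hσ) (le_refl (1 : ℝ)) h0 h1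
    rw [Eb_one _ hτ, h9P_card hG hσ, h9_B] at h3
    refine h3.trans (le_of_eq ?_)
    obtain ⟨i, rfl⟩ : ∃ i, j = i + 1 := ⟨j - 1, by omega⟩
    simp only [Nat.add_sub_cancel]
    push_cast
    rw [add_sub_cancel_right]
  -- the other terms
  have hT2 : ∀ w ∈ (G v).erase (σ v), Eb (univ.erase v) τ (fun A => if σ.symm w ∈ A then
      (1 : ℝ) / (dg G (insert v A) w * (1 + Kv G σ (insert v A) v)) else 0) ≤
      (1 / ((j : ℝ) - 1)) * ((1 - (1 - (1 - τ) ^ j) / (j * τ)) ^ 2 / ((j - 1) * τ)) +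
        6 * τ ^ 2 / ((j - 2) * τ) ^ 4 * ((h9P' G σ v w ∩ h9Q' G σ v w).card : ℝ) := by
    intro w hw
    rw [h9_term hw τ _ (fun A => 1 / ((2 + ((A ∩ h9P' G σ v w).card : ℝ)) *
      (2 + ((A ∩ h9Q' G σ v w).card : ℝ))))]
    · have h3 := overlap (h9P'_sub (G := G) (σ := σ) (v := v) (w := w)) h9Q'_sub (m := j - 2)
        (by omega) (h9P'_card hG hσ hw) (h9Q'_card hG hσ hw) (one_le_two : (1 : ℝ) ≤ 2) h0 h1
      have h4 := Eb_two (h9P' G σ v w) hτ
      rw [h9P'_card hG hσ hw] at h4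
      set e := Eb (h9P' G σ v w) τ fun A => 1 / (2 + (A.card : ℝ)) with he
      obtain ⟨i, rfl⟩ : ∃ i, j = i + 2 := ⟨j - 2, by omega⟩
      simp only [Nat.add_sub_cancel] at h4 h3
      have hi : ((i : ℝ) + 1) ≠ 0 := by positivity
      have h5 : ((i + 2 : ℕ) : ℝ) - 1 = i + 1 := by push_cast; ring
      have h6 : ((i + 2 : ℕ) : ℝ) - 2 = i := by push_cast; ring
      rw [h5, h6]
      push_cast
      rw [← h4]
      calc τ * Eb ((univ.erase v).erase (σ.symm w)) τ (fun A =>
            1 / ((2 + ((A ∩ h9P' G σ v w).card : ℝ)) * (2 + ((A ∩ h9Q' G σ v w).card : ℝ))))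
          ≤ τ * (e ^ 2 + 6 * ((h9P' G σ v w ∩ h9Q' G σ v w).card : ℝ) * τ / (i * τ) ^ 4) :=
            mul_le_mul_of_nonneg_left h3 h0.le
        _ = _ := by
            have : (1 / ((i : ℝ) + 1)) * ((((i : ℝ) + 1) * τ * e) ^ 2 / ((i + 1) * τ)) =
                τ * e ^ 2 := by
              field_simp
            rw [this]
            ring
    · intro A hA
      rw [if_pos (Finset.mem_insert_self _ _), h9_dg' hσ hw hA]
      have h7 := h9_K' (G := G) (σ := σ) hw hA
      have h8 : (1 : ℝ) + Kv G σ (insert v (insert (σ.symm w) A)) v =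
          2 + ((A ∩ h9Q' G σ v w).card : ℝ) := by
        exact_mod_cast h7
      rw [h8]
      push_cast
      rfl
    · intro A hA
      rw [if_neg]
      intro h
      simpa using hA h
  have hsum := Finset.sum_le_sum hT2
  rw [Finset.sum_add_distrib, Finset.sum_const, Finset.card_erase_of_mem (h9_mem hσ v), hG.1,
    nsmul_eq_mul, ← Finset.mul_sum, ← h9_C] at hsum
  have hj1 : ((j - 1 : ℕ) : ℝ) = (j : ℝ) - 1 := by
    rw [Nat.cast_sub (by omega)]
    simp
  have hj2 : ((j : ℝ) - 1) ≠ 0 := by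
    have : (4 : ℝ) ≤ j := by exact_mod_cast hj
    linarith
  have h9 : ((j - 1 : ℕ) : ℝ) *
      ((1 / ((j : ℝ) - 1)) * ((1 - (1 - (1 - τ) ^ j) / (j * τ)) ^ 2 / ((j - 1) * τ))) =
      (1 - (1 - (1 - τ) ^ j) / (j * τ)) ^ 2 / ((j - 1) * τ) := by
    rw [hj1]
    field_simp
  rw [h9] at hsum
  have h10 : 6 * τ ^ 2 / ((j - 2) * τ) ^ 4 * (Cv G σ v : ℝ) =
      6 * τ ^ 2 * Cv G σ v / ((j - 2) * τ) ^ 4 := by ring
  rw [h10] at hsum
  linarith

end Pool.Agent.Helper84.TL
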